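import Mathlib
import Pool.Agent.H78.BentArr

set_option autoImplicit false

open Pool.Agent.H19Bent

namespace Pool.Agent.Results.MP_c28a60_co.ArrayLowerBound

/-- For every even `n ≥ 8` there are at least `2 ^ ((n - 8) 2 ^ (n / 2))` bent iterative functions
in `n` variables. -/
theorem result (n : ℕ) (hn : 8 ≤ n) (he : Even n) :
    2 ^ ((n - 8) * 2 ^ (n / 2)) ≤ Nat.card (bentIter (n - 2)) :=
  Pool.Agent.H78.BentArr.final n hn he

end Pool.Agent.Results.MP_c28a60_co.ArrayLowerBound
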