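import Mathlib
import Pool.Agent.H19Bent.Basic

set_option autoImplicit false

open Pool.Agent.H19Bent

namespace Pool.Agent.Results.MP_c28a60_co.DefectSum

/-- For all `1 ≤ N ≤ M`, the defects `1 - log log |BI_n| / log log |B_n|`, summed over the even
`n = 2j + 2` with `2N < n ≤ 2M`, add up to at most `log (1 + M / N)`. -/
theorem result (N M : ℕ) (hN : 1 ≤ N) (hNM : N ≤ M) :
    ∑ j ∈ Finset.Ico N M,
      (1 - Real.logb 2 (Real.logb 2 (Nat.card (bentIter (2 * j)))) /
        Real.logb 2 (Real.logb 2 (Nat.card (bent (2 * j + 2))))) ≤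
      Real.log (1 + (M : ℝ) / N) := by
  have hN' : (1 : ℝ) ≤ N := by exact_mod_cast hN
  -- `s j = log log |B_2j| - j` is nondecreasing and lies in `[0, j]`
  have hs0 : ∀ j : ℕ, 0 ≤ llB (2 * j) - j := fun j => by linarith [le_llB j]
  have hstep : ∀ j : ℕ, llB (2 * j) - j ≤ llB (2 * (j + 1)) - ((j + 1 : ℕ) : ℝ) := fun j => by
    have := llB_step j
    push_cast
    linarith
  have key : ∀ K : ℕ, N ≤ K →
      ∑ j ∈ Finset.Ico N K, (1 - llBI (2 * j) / llB (2 * (j + 1))) ≤
        Real.log (N + (llB (2 * K) - K)) - Real.log (N + (llB (2 * N) - N)) := by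
    intro K hK
    induction K, hK using Nat.le_induction with
    | base => simp
    | succ K hK ih =>
      rw [Finset.sum_Ico_succ_top hK]
      have hKN : (N : ℝ) ≤ K := by exact_mod_cast hK
      set s := llB (2 * K) - K with hs
      set s' := llB (2 * (K + 1)) - ((K + 1 : ℕ) : ℝ) with hs'
      have h0 : 0 ≤ s := hs0 K
      have h1 : s ≤ s' := hstep K
      have hx : llB (2 * (K + 1)) = K + 1 + s' := by
        rw [hs']
        push_cast
        ring
      have hx0 : llB (2 * K) = K + s := by
        rw [hs]
        ring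
      have hpos : 0 < (K : ℝ) + 1 + s' := by linarith
      have hA : 1 - llBI (2 * K) / llB (2 * (K + 1)) ≤ (s' - s) / (N + s') := by
        have h2 := llBI_ge K
        rw [hx0] at h2
        rw [hx]
        have e1 : 1 - llBI (2 * K) / ((K : ℝ) + 1 + s') =
            ((K : ℝ) + 1 + s' - llBI (2 * K)) / ((K : ℝ) + 1 + s') := by
          field_simp
        rw [e1]
        calc ((K : ℝ) + 1 + s' - llBI (2 * K)) / ((K : ℝ) + 1 + s')
            ≤ (s' - s) / ((K : ℝ) + 1 + s') := by
              apply div_le_div_of_nonneg_right _ hpos.le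
              linarith
          _ ≤ (s' - s) / (N + s') := by
              apply div_le_div_of_nonneg_left _ _ _
              · linarith
              · linarith
              · linarith
      have hB : (s' - s) / (N + s') ≤ Real.log (N + s') - Real.log (N + s) := by
        have hp1 : 0 < (N : ℝ) + s := by linarith
        have hp2 : 0 < (N : ℝ) + s' := by linarith
        have h3 := Real.log_le_sub_one_of_pos (div_pos hp1 hp2)
        rw [Real.log_div hp1.ne' hp2.ne'] at h3
        have h4 : ((N : ℝ) + s) / (N + s') - 1 = -((s' - s) / (N + s')) := by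
          field_simp
          ring
        linarith
      linarith
  have h1 := key M hNM
  have h2 : Real.log (N + (llB (2 * M) - M)) ≤ Real.log (N + M) := by
    apply Real.log_le_log
    · linarith [hs0 M]
    · linarith [llB_le M]
  have h3 : Real.log N ≤ Real.log (N + (llB (2 * N) - N)) := by
    apply Real.log_le_log
    · linarith
    · linarith [hs0 N]
  have h4 : Real.log (1 + (M : ℝ) / N) = Real.log (N + M) - Real.log N := by
    rw [← Real.log_div (by positivity) (by linarith)]
    congr 1
    field_simp
  rw [h4]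
  have h5 : ∑ j ∈ Finset.Ico N M, (1 - llBI (2 * j) / llB (2 * (j + 1))) =
      ∑ j ∈ Finset.Ico N M,
      (1 - Real.logb 2 (Real.logb 2 (Nat.card (bentIter (2 * j)))) /
        Real.logb 2 (Real.logb 2 (Nat.card (bent (2 * j + 2))))) := rfl
  rw [← h5]
  linarith

end Pool.Agent.Results.MP_c28a60_co.DefectSum
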