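import Mathlib
import Pool.Agent.H78.ShareC

set_option autoImplicit false

open Pool.Agent.H19Bent

namespace Pool.Agent.Results.MP_c28a60_co.ShareTendsToZero

/-- For every even `n ≥ 22` the number of bent iterative functions in `n` variables is at most
`2 ^ (4 - n / 2)` times the number of all bent functions in `n` variables. -/
theorem result (n : ℕ) (hn : 22 ≤ n) (he : Even n) :
    2 ^ (n / 2 - 4) * Nat.card (bentIter (n - 2)) ≤ Nat.card (bent n) :=
  Pool.Agent.H78.Share.final n hn he

end Pool.Agent.Results.MP_c28a60_co.ShareTendsToZero
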